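import Pool.Agent.H.MP_fabcd1_nt.Core

namespace Pool.Agent.H.MP_5217bf_nt

open Finset Filter Topology Pool.Agent.H.MP_fabcd1_nt

/-- weight `-1` on parts `≡ 1 (mod 3)` -/
noncomputable def w : ℕ → ℂ := fun i => if i % 3 = 1 then -1 else 0

noncomputable def G (z : ℂ) : ℂ := ∑' m : ℕ, (-1) ^ m / m * (z ^ m / (1 - z ^ (3 * m)))

theorem w_le (i : ℕ) : ‖w i‖ ≤ 1 := by
  unfold w; split_ifs <;> simp

theorem tsum_w (z : ℂ) (hz : ‖z‖ < 1) : ∑' n, c w n * z ^ n = Complex.exp (G z) := by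
  refine tsum_c _ w_le z hz _ ?_
  let u : ℕ × ℕ → ℂ := fun q => (w (q.1 + 1) * z ^ (q.1 + 1)) ^ q.2 / q.2
  have g := summable_geometric_of_lt_one (norm_nonneg z) hz
  have su : Summable u := by
    refine Summable.of_norm_bounded (g.mul_of_nonneg g (fun _ => by positivity)
      (fun _ => by positivity)) ?_
    rintro ⟨i, m⟩
    simp only [u]
    rcases m with _ | m
    · simp
    · rw [norm_div, norm_pow, norm_mul, norm_pow, Complex.norm_natCast, mul_pow, ← pow_mul,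
        ← pow_add]
      have h1 : ‖w (i + 1)‖ ^ (m + 1) ≤ 1 := pow_le_one₀ (norm_nonneg _) (w_le _)
      have h2 : ‖z‖ ^ ((i + 1) * (m + 1)) ≤ ‖z‖ ^ (i + (m + 1)) :=
        pow_le_pow_of_le_one (norm_nonneg z) hz.le (by nlinarith [Nat.zero_le (i * m)])
      refine (div_le_self (by positivity) (by push_cast; linarith [Nat.cast_nonneg (α := ℝ) m])).trans ?_
      exact (mul_le_of_le_one_left (by positivity) h1).trans h2
  have A : HasSum (fun i => -Complex.log (1 - w (i + 1) * z ^ (i + 1))) (∑' q, u q) := by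
    refine su.hasSum.prod_fiberwise fun i => Complex.hasSum_taylorSeries_neg_log ?_
    rw [norm_mul, norm_pow]
    have := pow_lt_one₀ (norm_nonneg z) hz (Nat.add_one_ne_zero i)
    have h2 := w_le (i + 1)
    nlinarith [norm_nonneg (w (i + 1)), pow_nonneg (norm_nonneg z) (i + 1)]
  have B : HasSum (fun m : ℕ => (-1 : ℂ) ^ m / m * (z ^ m / (1 - z ^ (3 * m)))) (∑' q, u q) := by
    have s2 : HasSum (u ∘ Prod.swap) (∑' q, u q) := (Equiv.prodComm ℕ ℕ).hasSum_iff.2 su.hasSum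
    refine s2.prod_fiberwise fun m => ?_
    simp only [u, Function.comp, Prod.swap]
    rcases Nat.eq_zero_or_pos m with rfl | hm
    · simp
    · have hy : ‖z ^ (3 * m)‖ < 1 := by
        rw [norm_pow]; exact pow_lt_one₀ (norm_nonneg z) hz (by omega)
      have h1 := (hasSum_geometric_of_norm_lt_one hy).mul_left ((-1 : ℂ) ^ m / m * z ^ m)
      have inj : Function.Injective fun k : ℕ => 3 * k := fun a b h => by simpa using h
      rw [← inj.hasSum_iff]
      · have e1 : ((fun i : ℕ => (w (i + 1) * z ^ (i + 1)) ^ m / (m : ℂ)) ∘ fun k => 3 * k)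
            = fun i => (-1 : ℂ) ^ m / m * z ^ m * (z ^ (3 * m)) ^ i := by
          funext k
          have : (3 * k + 1) % 3 = 1 := by omega
          simp only [Function.comp, w, this, if_true]
          rw [mul_pow]
          ring
        rw [e1, div_eq_mul_inv (z ^ m), ← mul_assoc]
        exact h1
      · intro i hi
        have : ¬ (i + 1) % 3 = 1 := fun h => hi ⟨i / 3, by simp only; omega⟩
        simp [w, this, hm.ne']
  rw [G, B.tsum_eq]
  exact A

open Classical in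
noncomputable def lam (ζ τ : ℂ) (m : ℕ) : ℂ :=
  if ζ ^ (3 * m) = 1 then (-ζ) ^ m / (3 * m ^ 2 * τ) else 0

theorem lim_term (ζ τ : ℂ) (hτ : τ.re = 1) (m : ℕ) :
    Tendsto (fun t : ℝ => (t : ℂ) * ((-1) ^ m / m * ((ζ * Complex.exp (-(t * τ))) ^ m /
      (1 - (ζ * Complex.exp (-(t * τ))) ^ (3 * m))))) (𝓝[>] 0) (𝓝 (lam ζ τ m)) := by
  have hτ0 : τ ≠ 0 := by rintro rfl; simp at hτ
  have cz : Continuous fun t : ℝ => ζ * Complex.exp (-(t * τ)) := by fun_prop
  rcases Nat.eq_zero_or_pos m with rfl | hm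
  · simp [lam]
  have hm' : (m : ℂ) ≠ 0 := by exact_mod_cast hm.ne'
  unfold lam
  split_ifs with h
  · have d : HasDerivAt (fun t : ℝ => 1 - (ζ * Complex.exp (-(t * τ))) ^ (3 * m))
        (3 * m * τ) 0 := by
      have e : (fun t : ℝ => 1 - (ζ * Complex.exp (-(t * τ))) ^ (3 * m))
          = fun t : ℝ => 1 - Complex.exp ((t : ℂ) * (-(3 * m * τ))) := by
        funext t
        rw [mul_pow, h, one_mul, ← Complex.exp_nat_mul]
        congr 2
        push_cast; ring
      rw [e]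
      have d1 : HasDerivAt (fun t : ℂ => 1 - Complex.exp (t * (-(3 * m * τ)))) (3 * m * τ)
          ((0 : ℝ) : ℂ) := by
        have := (((hasDerivAt_id ((0 : ℝ) : ℂ)).mul_const (-(3 * m * τ))).cexp).const_sub 1
        simpa using this
      exact d1.comp_ofReal
    have s := d.tendsto_slope_zero_right
    simp only [zero_add, Complex.ofReal_zero, zero_mul, neg_zero, Complex.exp_zero, mul_one, h,
      sub_self, sub_zero] at s
    have s2 := s.inv₀ (by simp [hm', hτ0])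
    have c1 : Tendsto (fun t : ℝ => (-1 : ℂ) ^ m / m * (ζ * Complex.exp (-(t * τ))) ^ m) (𝓝[>] 0)
        (𝓝 ((-1) ^ m / m * ζ ^ m)) := by
      have : Continuous fun t : ℝ => (-1 : ℂ) ^ m / m * (ζ * Complex.exp (-(t * τ))) ^ m := by
        fun_prop
      simpa using (this.tendsto 0).mono_left nhdsWithin_le_nhds
    have e2 : (-ζ) ^ m / (3 * m ^ 2 * τ) = (-1) ^ m / m * ζ ^ m * (3 * m * τ)⁻¹ := by
      rw [neg_pow]
      field_simp
    rw [e2]
    refine (c1.mul s2).congr fun t => ?_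
    rw [Complex.real_smul, mul_inv, Complex.ofReal_inv, inv_inv]
    ring
  · have c1 : ContinuousAt (fun t : ℝ => (t : ℂ) * ((-1) ^ m / m *
      ((ζ * Complex.exp (-(t * τ))) ^ m / (1 - (ζ * Complex.exp (-(t * τ))) ^ (3 * m))))) 0 := by
      refine ContinuousAt.mul (by fun_prop) (ContinuousAt.mul (by fun_prop)
        (ContinuousAt.div (by fun_prop) (by fun_prop) ?_))
      have : (1 : ℂ) - ζ ^ (3 * m) ≠ 0 := sub_ne_zero.2 (Ne.symm h)
      simpa using this
    simpa using c1.tendsto.mono_left nhdsWithin_le_nhds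

theorem dom_term (ζ τ : ℂ) (hζ : ‖ζ‖ = 1) (hτ : τ.re = 1) (m : ℕ) (t : ℝ) (ht : 0 < t) :
    ‖(t : ℂ) * ((-1) ^ m / m * ((ζ * Complex.exp (-(t * τ))) ^ m /
      (1 - (ζ * Complex.exp (-(t * τ))) ^ (3 * m))))‖ ≤ 1 / (m : ℝ) ^ 2 := by
  rcases Nat.eq_zero_or_pos m with rfl | hm
  · simp
  have hm' : (0 : ℝ) < m := by exact_mod_cast hm
  set z := ζ * Complex.exp (-(t * τ)) with hz
  have n1 : ‖z ^ m‖ = Real.exp (-(m * t)) := by
    rw [norm_pow, hz, norm_pt ζ τ hζ hτ, ← Real.exp_nat_mul]; ring_nf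
  set E := Real.exp (-(m * t)) with hE
  have E0 : 0 < E := Real.exp_pos _
  have hs : 0 < m * t := by positivity
  have E1 : E * (m * t + 1) ≤ 1 := by
    have := Real.add_one_le_exp (m * t)
    rw [hE, Real.exp_neg, inv_mul_le_iff₀ (Real.exp_pos _)]
    linarith
  have n2 : E * (m * t) ≤ ‖1 - z ^ (3 * m)‖ := by
    have h1 := norm_sub_norm_le (1 : ℂ) (z ^ (3 * m))
    have h2 : ‖z ^ (3 * m)‖ = E ^ 3 := by rw [pow_mul', norm_pow, n1]
    rw [norm_one, h2] at h1
    have : E ≤ 1 := by nlinarith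
    have : E ^ 3 ≤ E := pow_le_of_le_one E0.le this (by norm_num)
    nlinarith
  have p : 0 < ‖1 - z ^ (3 * m)‖ := lt_of_lt_of_le (by positivity) n2
  rw [norm_mul, norm_mul, norm_div, norm_div, norm_pow (-1 : ℂ), norm_neg, norm_one, n1,
    Complex.norm_natCast, Complex.norm_real, Real.norm_of_nonneg ht.le, one_pow]
  have : E / ‖1 - z ^ (3 * m)‖ ≤ 1 / (m * t) := by
    rw [div_le_div_iff₀ p hs]; linarith
  calc t * (1 / m * (E / ‖1 - z ^ (3 * m)‖)) ≤ t * (1 / m * (1 / (m * t))) := by gcongr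
    _ = _ := by field_simp

theorem lim_G (ζ τ : ℂ) (hζ : ‖ζ‖ = 1) (hτ : τ.re = 1) :
    Tendsto (fun t : ℝ => t * (G (ζ * Complex.exp (-(t * τ)))).re) (𝓝[>] 0)
      (𝓝 (∑' m, lam ζ τ m).re) := by
  have h := tendsto_tsum_of_dominated_convergence (𝓕 := 𝓝[>] (0 : ℝ)) hasSum_zeta_two.summable
    (lim_term ζ τ hτ) (eventually_nhdsWithin_of_forall fun t ht m => dom_term ζ τ hζ hτ m t ht)
  refine ((Complex.continuous_re.tendsto _).comp h).congr fun t => ?_
  simp only [Function.comp, tsum_mul_left, G, Complex.re_ofReal_mul]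

theorem lam_le (ζ τ : ℂ) (hζ : ‖ζ‖ = 1) (m : ℕ) :
    ‖lam ζ τ m‖ ≤ (3 * ‖τ‖)⁻¹ * (1 / (m : ℝ) ^ 2) := by
  unfold lam
  split_ifs
  · rw [norm_div, norm_pow, norm_neg, hζ, norm_mul, norm_mul, norm_pow, Complex.norm_natCast]
    simp only [one_pow, Complex.norm_ofNat]
    apply le_of_eq
    ring
  · simp only [norm_zero]; positivity

theorem tail (ζ τ : ℂ) (hζ : ‖ζ‖ = 1) :
    |(∑' m, lam ζ τ m).re - ∑ m ∈ range 7, (lam ζ τ m).re| ≤ (3 * ‖τ‖)⁻¹ * 0.154 := by
  have sb := hasSum_zeta_two.mul_left (3 * ‖τ‖)⁻¹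
  have sl : Summable (lam ζ τ) := Summable.of_norm_bounded sb.summable (lam_le ζ τ hζ)
  rw [← sl.sum_add_tsum_nat_add 7, Complex.add_re, Complex.re_sum, add_sub_cancel_left]
  refine (Complex.abs_re_le_norm _).trans ?_
  refine (tsum_of_norm_bounded ((hasSum_nat_add_iff' 7).2 sb) fun m => lam_le ζ τ hζ _).trans ?_
  rw [← mul_sum, ← mul_sub]
  refine mul_le_mul_of_nonneg_left ?_ (by positivity)
  simp only [sum_range_succ, sum_range_zero]
  have := Real.pi_lt_d4
  have h0 := Real.pi_pos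
  norm_num
  nlinarith

theorem part (x τ σ : ℂ) (hx : ‖x‖ = 1) (hx2 : x ^ 2 + x + 1 = 0) (h : τ⁻¹ = σ) :
    ∑ m ∈ range 7, (lam x τ m).re = (2019 / 7200 * σ.re + 459 / 400 * x.im * σ.im) / 3 := by
  have xre := x_re x hx hx2
  have hx3 : x ^ 3 = 1 := by linear_combination (x - 1) * hx2
  have e : ∀ (m : ℕ) (A B : ℝ), (-x) ^ m = A + B * x → (lam x τ m).re
      = ((A - B / 2) * σ.re - B * x.im * σ.im) / (3 * m ^ 2) := by
    intro m A B h'
    have : lam x τ m = ((3 * m ^ 2 : ℝ)⁻¹ : ℝ) * ((A + B * x) * σ) := by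
      rw [lam, if_pos (by rw [pow_mul, hx3, one_pow]), h', div_eq_mul_inv, mul_inv, h]
      push_cast
      ring
    rw [this, Complex.re_ofReal_mul]
    simp [xre]
    ring
  have e0 := e 0 1 0 (by simp)
  have e1 := e 1 0 (-1) (by push_cast; ring)
  have e2 := e 2 (-1) (-1) (by push_cast; linear_combination hx2)
  have e3 := e 3 (-1) 0 (by push_cast; linear_combination -hx3)
  have e4 := e 4 0 1 (by push_cast; linear_combination x * hx3)
  have e5 := e 5 1 1 (by push_cast; linear_combination -x ^ 2 * hx3 - hx2)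
  have e6 := e 6 1 0 (by push_cast; linear_combination (x ^ 3 + 1) * hx3)
  simp only [sum_range_succ, sum_range_zero, e0, e1, e2, e3, e4, e5, e6]
  push_cast
  ring

theorem offrad (x : ℂ) (hx : ‖x‖ = 1) (hx2 : x ^ 2 + x + 1 = 0) (hi : x.im ≤ -0.866) :
    0.175 < (∑' m, lam x (1 + Complex.I) m).re := by
  have T := (abs_le.1 (tail x (1 + Complex.I) hx)).1
  have n : 1.4 ≤ ‖1 + Complex.I‖ := by
    have : ‖1 + Complex.I‖ ^ 2 = 2 := by
      rw [← Complex.normSq_eq_norm_sq]; simp [Complex.normSq_apply]; norm_num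
    nlinarith [norm_nonneg (1 + Complex.I)]
  have n2 : (3 * ‖1 + Complex.I‖)⁻¹ * 0.154 ≤ 0.037 := by
    rw [inv_mul_le_iff₀ (by positivity)]; linarith
  have ii : (1 + Complex.I)⁻¹ = (⟨1 / 2, -1 / 2⟩ : ℂ) := by
    refine inv_eq_of_mul_eq_one_right ?_
    apply Complex.ext <;> simp <;> norm_num
  rw [part x _ _ hx hx2 ii] at T
  norm_num at T n2 hi ⊢
  linarith

theorem radial (ζ : ℂ) (hζ : ‖ζ‖ = 1) : (∑' m, lam ζ 1 m).re < 0.17 := by
  have T := (abs_le.1 (tail ζ 1 hζ)).2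
  simp only [norm_one, mul_one] at T
  suffices ∑ m ∈ range 7, (lam ζ 1 m).re ≤ 0.114 by norm_num at T this ⊢; linarith
  by_cases h0 : ζ ^ 2 + ζ + 1 = 0
  · rw [part ζ 1 1 hζ h0 inv_one]; norm_num
  have b : ∀ m, (lam ζ 1 m).re ≤ 1 / 3 * (1 / (m : ℝ) ^ 2) := fun m => by
    have := (Complex.re_le_norm _).trans (lam_le ζ 1 hζ m)
    simpa using this
  have z : ∀ m, ζ ^ (3 * m) ≠ 1 → (lam ζ 1 m).re = 0 := fun m h => by simp [lam, h]
  simp only [sum_range_succ, sum_range_zero]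
  have b0 := b 0; have b1 := b 1; have b2 := b 2; have b3 := b 3; have b4 := b 4
  have b5 := b 5; have b6 := b 6
  norm_num at b0 b1 b2 b3 b4 b5 b6 ⊢
  by_cases h1 : ζ ^ 3 = 1
  · have : ζ = 1 := by
      have : (ζ - 1) * (ζ ^ 2 + ζ + 1) = 0 := by linear_combination h1
      exact sub_eq_zero.1 ((mul_eq_zero.1 this).resolve_right h0)
    subst this
    have h1' : (lam 1 1 1).re = -1 / 3 := by
      have : lam 1 1 1 = (-1 / 3 : ℝ) := by rw [lam, if_pos (by simp)]; push_cast; ring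
      rw [this, Complex.ofReal_re]
    linarith
  · have z1 := z 1 (by simpa using h1)
    by_cases h2 : ζ ^ (3 * 2) = 1
    · have z3 := z 3 fun h => h1 (by linear_combination h - ζ ^ 3 * h2)
      have z5 := z 5 fun h => h1 (by linear_combination h - ζ ^ 3 * (ζ ^ 6 + 1) * h2)
      linarith
    · have z2 := z 2 h2
      linarith

theorem core (E : ℕ → ℂ) (T : ℕ) (hT : 0 < T) (hE : ∀ n, E (n + T) = E n) (n0 : ℕ)
    (h : ∀ n ≥ n0, ((‖c w n‖ : ℝ) : ℂ) = E n * c w n) : False := by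
  have : NeZero T := ⟨hT.ne'⟩
  obtain ⟨β, ζ, hζ, hβ⟩ := fourier E T hE
  have s3 : (Real.sqrt 3) ^ 2 = 3 := Real.sq_sqrt (by norm_num)
  have s0 := Real.sqrt_nonneg 3
  let x : ℂ := ⟨-1 / 2, -Real.sqrt 3 / 2⟩
  have hx2 : x ^ 2 + x + 1 = 0 := by
    apply Complex.ext <;> simp [x, pow_two] <;> nlinarith
  have hx3 : x ^ 3 = 1 := by linear_combination (x - 1) * hx2
  have hx : ‖x‖ = 1 := Complex.norm_eq_one_of_pow_eq_one hx3 (by norm_num)
  set d : ℕ → ℂ := c w with hd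
  have hs : ∀ z : ℂ, ‖z‖ < 1 → HasSum (fun n => d n * z ^ n) (Complex.exp (G z)) := fun z hz => by
    rw [← tsum_w z hz]
    exact (summable_c _ w_le z hz).of_norm.hasSum
  set C : ℝ := ∑ n ∈ range n0, ‖((‖d n‖ : ℝ) : ℂ) - E n * d n‖ with hC
  set B : ℝ := ∑ j, ‖β j‖ with hB
  have C0 : 0 ≤ C := sum_nonneg fun _ _ => norm_nonneg _
  have B0 : 0 ≤ B := sum_nonneg fun _ _ => norm_nonneg _
  have I1 : (1 + Complex.I).re = 1 := by simp
  have e1 := (lim_G x (1 + Complex.I) hx I1).eventually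
    (lt_mem_nhds (offrad x hx hx2 (by simp only [x]; nlinarith)))
  have e3 := eventually_all.2 fun j => (lim_G (ζ j) 1 (hζ j) (by simp)).eventually
    (gt_mem_nhds (radial (ζ j) (hζ j)))
  have e5 : ∀ᶠ t : ℝ in 𝓝[>] 0, t < 0.005 / (C + B + 1) :=
    nhdsWithin_le_nhds (gt_mem_nhds (by positivity))
  obtain ⟨t, ⟨⟨t1, t3⟩, t5⟩, ht⟩ := (((e1.and e3).and e5).and self_mem_nhdsWithin).exists
  have ht : 0 < t := ht
  set r := Real.exp (-t) with hr
  have r0 : 0 < r := Real.exp_pos _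
  have r1 : r < 1 := Real.exp_lt_one_iff.2 (by linarith)
  set W := Real.exp (0.17 / t) with hW
  have W1 : 1 ≤ W := Real.one_le_exp (by positivity)
  have up : ∀ g : ℂ, t * g.re < 0.17 → ‖Complex.exp g‖ ≤ W := fun g hg => by
    rw [Complex.norm_exp]
    exact Real.exp_le_exp.2 (by rw [le_div_iff₀ ht]; linarith)
  set z : ℂ := x * Complex.exp (-(t * (1 + Complex.I))) with hz
  have nz : ‖z‖ = r := norm_pt _ _ hx I1 t
  have sd : Summable fun n => ‖d n * z ^ n‖ := (hs z (by rwa [nz])).summable.norm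
  have A : ‖Complex.exp (G z)‖ ≤ ∑' n, ‖d n * z ^ n‖ := by
    rw [← (hs z (by rwa [nz])).tsum_eq]
    exact norm_tsum_le_tsum_norm sd
  have S1 : HasSum (fun n => (((‖d n‖ : ℝ) : ℂ) - E n * d n) * (r : ℂ) ^ n)
      (∑ n ∈ range n0, (((‖d n‖ : ℝ) : ℂ) - E n * d n) * (r : ℂ) ^ n) :=
    hasSum_sum_of_ne_finset_zero fun n hn => by
      rw [h n (by simpa using hn), sub_self, zero_mul]
  have S2 : HasSum (fun n => ∑ j, β j * (d n * (ζ j * Complex.exp (-(t * 1))) ^ n))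
      (∑ j, β j * Complex.exp (G (ζ j * Complex.exp (-(t * 1))))) :=
    hasSum_sum fun j _ => (hs _ (by rwa [norm_pt _ 1 (hζ j) (by simp)])).mul_left _
  have S3 := Complex.hasSum_ofReal.2 sd.hasSum
  have e : (fun n => ((‖d n * z ^ n‖ : ℝ) : ℂ)) = fun n =>
      (((‖d n‖ : ℝ) : ℂ) - E n * d n) * (r : ℂ) ^ n
        + ∑ j, β j * (d n * (ζ j * Complex.exp (-(t * 1))) ^ n) := by
    funext n
    have : Complex.exp (-(t * 1)) = (r : ℂ) := by simp [hr]
    rw [norm_mul, norm_pow, nz, this, hβ n, sum_mul, sub_mul, sum_mul, sub_add, ← sum_sub_distrib,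
      sum_eq_zero fun j _ => by ring]
    push_cast; ring
  rw [e] at S3
  have U := S3.unique (S1.add S2)
  have Bd : ∑' n, ‖d n * z ^ n‖ ≤ C + B * W := by
    refine (le_abs_self _).trans ?_
    rw [← Real.norm_eq_abs, ← Complex.norm_real, U]
    refine (norm_add_le _ _).trans (add_le_add ?_ ?_)
    · refine (norm_sum_le _ _).trans (sum_le_sum fun n _ => ?_)
      rw [norm_mul, norm_pow, Complex.norm_real, Real.norm_of_nonneg r0.le]
      exact mul_le_of_le_one_right (norm_nonneg _) (pow_le_one₀ r0.le r1.le)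
    · rw [hB, sum_mul]
      refine (norm_sum_le _ _).trans (sum_le_sum fun j _ => ?_)
      rw [norm_mul]
      exact mul_le_mul_of_nonneg_left (up _ (t3 j)) (norm_nonneg _)
  have L : W * (0.005 / t + 1) ≤ ‖Complex.exp (G z)‖ := by
    rw [Complex.norm_exp]
    refine le_trans (mul_le_mul_of_nonneg_left (Real.add_one_le_exp _) (by linarith)) ?_
    rw [hW, ← Real.exp_add, ← add_div]
    exact Real.exp_le_exp.2 (by rw [div_le_iff₀ ht]; linarith)
  have L4 : C + B + 1 < 0.005 / t := by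
    rw [lt_div_iff₀ (by positivity)] at t5
    rw [lt_div_iff₀ ht]; linarith
  nlinarith

end Pool.Agent.H.MP_5217bf_nt
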